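import Mathlib

namespace Pool.Agent.Results.MP_ee2dc8_co.Sun

open MeasureTheory Set

variable {V : Type} [Fintype V] [DecidableEq V]

/-- the point of the vertex v -/
def vtx (v : V) : V → ℝ := Pi.single v 1

/-- the cake: the union of the closed edge segments -/
def cake (G : SimpleGraph V) : Set (V → ℝ) :=
  {x | ∃ u v, G.Adj u v ∧ x ∈ segment ℝ (vtx u) (vtx v)}

/-- an interval inside an edge -/
def IsInterval (G : SimpleGraph V) (I : Set (V → ℝ)) : Prop :=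
  Convex ℝ I ∧ ∃ u v, G.Adj u v ∧ I ⊆ segment ℝ (vtx u) (vtx v)

/-- a connected piece -/
def IsConnPiece (G : SimpleGraph V) (X : Set (V → ℝ)) : Prop :=
  (∃ F : Set (Set (V → ℝ)), F.Finite ∧ (∀ I ∈ F, IsInterval G I) ∧ X = ⋃₀ F) ∧
    ∀ x ∈ X, ∀ y ∈ X, JoinedIn X x y

/-- an allocation -/
def IsAlloc (G : SimpleGraph V) {n : ℕ} (P : Fin n → Set (V → ℝ)) : Prop :=
  (∀ j, IsConnPiece G (P j)) ∧ ∀ j k, j ≠ k → Disjoint (P j) (P k)

/-- value with constant density on each edge -/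
noncomputable def val (w : V → V → ℝ) (X : Set (V → ℝ)) : ℝ :=
  ∑ u, ∑ v, w u v *
    (volume {t ∈ Icc (0 : ℝ) 1 | AffineMap.lineMap (vtx u) (vtx v) t ∈ X}).toReal

omit [Fintype V] in
lemma sub_cake {G : SimpleGraph V} {X : Set (V → ℝ)} (h : IsConnPiece G X) : X ⊆ cake G := by
  obtain ⟨⟨F, -, hF, rfl⟩, -⟩ := h
  rintro x ⟨I, hI, hx⟩
  obtain ⟨-, u, v, huv, hs⟩ := hF I hI
  exact ⟨u, v, huv, hs hx⟩

lemma phi_vtx (s : V → ℤ) (u : V) : ∑ v, (s v : ℝ) * vtx u v = s u := by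
  simp [vtx, Pi.single_apply]

lemma phi_comb (s : V → ℤ) (u v : V) (a b : ℝ) :
    ∑ z, (s z : ℝ) * (a • vtx u + b • vtx v) z = a * s u + b * s v := by
  rw [← phi_vtx s u, ← phi_vtx s v, Finset.mul_sum, Finset.mul_sum, ← Finset.sum_add_distrib]
  refine Finset.sum_congr rfl fun z _ => ?_
  simp; ring

lemma sep {G : SimpleGraph V} {X : Set (V → ℝ)} (h : IsConnPiece G X) (s : V → ℤ)
    (hs : ∀ u v, G.Adj u v → 0 ≤ s u * s v ∧ (s u ≠ 0 ∨ s v ≠ 0)) {x y : V → ℝ}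
    (hx : x ∈ X) (hy : y ∈ X) (h1 : 0 ≤ ∑ v, (s v : ℝ) * x v) (h2 : ∑ v, (s v : ℝ) * y v ≤ 0) :
    ∃ v, s v = 0 ∧ vtx v ∈ X := by
  have hpc : IsPreconnected X := by
    have : IsPathConnected X := ⟨x, hx, fun {z} hz => h.2 x hx z hz⟩
    exact this.isConnected.isPreconnected
  have hc : Continuous fun z : V → ℝ => ∑ v, (s v : ℝ) * z v := by fun_prop
  obtain ⟨z, hz, hz0⟩ := hpc.intermediate_value hy hx hc.continuousOn ⟨h2, h1⟩
  obtain ⟨u, v, huv, a, b, ha, hb, hab, rfl⟩ := sub_cake h hz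
  beta_reduce at hz0
  rw [phi_comb] at hz0
  obtain ⟨h3, h4⟩ := hs u v huv
  have h3' : (0 : ℝ) ≤ (s u : ℝ) * s v := by exact_mod_cast h3
  rcases h4 with h4 | h4
  · have h4' : (s u : ℝ) ≠ 0 := by exact_mod_cast h4
    have hp : 0 < (s u : ℝ) * s u := mul_self_pos.mpr h4'
    have e : a * ((s u : ℝ) * s u) + b * ((s u : ℝ) * s v) = 0 := by
      linear_combination (s u : ℝ) * hz0
    have ha0 : a = 0 := by
      by_contra hne
      have : 0 < a := lt_of_le_of_ne ha (Ne.symm hne)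
      nlinarith [mul_pos this hp, mul_nonneg hb h3']
    have hb1 : b = 1 := by linarith
    subst ha0 hb1
    refine ⟨v, ?_, by simpa using hz⟩
    have : (s v : ℝ) = 0 := by linarith
    exact_mod_cast this
  · have h4' : (s v : ℝ) ≠ 0 := by exact_mod_cast h4
    have hp : 0 < (s v : ℝ) * s v := mul_self_pos.mpr h4'
    have e : a * ((s u : ℝ) * s v) + b * ((s v : ℝ) * s v) = 0 := by
      linear_combination (s v : ℝ) * hz0
    have hb0 : b = 0 := by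
      by_contra hne
      have : 0 < b := lt_of_le_of_ne hb (Ne.symm hne)
      nlinarith [mul_pos this hp, mul_nonneg ha h3']
    have ha1 : a = 1 := by linarith
    subst hb0 ha1
    refine ⟨u, ?_, by simpa using hz⟩
    have : (s u : ℝ) = 0 := by linarith
    exact_mod_cast this

abbrev W := Fin 8 × Bool

def R (x y : W) : Bool :=
  !x.2 && ((!y.2 && y.1 == x.1 + 1) || (y.2 && x.1 == y.1))

def G0 : SimpleGraph W where
  Adj x y := (R x y || R y x) = true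
  symm := ⟨fun x y h => by rwa [Bool.or_comm]⟩
  loopless := ⟨by decide +kernel⟩

instance : DecidableRel G0.Adj := fun x y => inferInstanceAs (Decidable ((R x y || R y x) = true))

def ww (o : Fin 8 → ℕ) (u v : W) : ℝ :=
  if u.2 = false ∧ v.2 = true ∧ u.1 = v.1 then o u.1 else 0

noncomputable def m (X : Set (W → ℝ)) (c : Fin 8) : ℝ :=
  (volume {t ∈ Icc (0 : ℝ) 1 | AffineMap.lineMap (vtx (c, false)) (vtx (c, true)) t ∈ X}).toReal

lemma val_eq (o : Fin 8 → ℕ) (X : Set (W → ℝ)) : val (ww o) X = ∑ c, (o c : ℝ) * m X c := by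
  unfold val
  rw [Fintype.sum_prod_type]
  refine Finset.sum_congr rfl fun c _ => ?_
  rw [Fintype.sum_bool]
  have h1 : ∀ v, ww o (c, true) v = 0 := by intro v; simp [ww]
  simp only [h1, zero_mul, Finset.sum_const_zero, zero_add]
  rw [Finset.sum_eq_single (c, true)]
  · simp [ww, m]
  · rintro ⟨d, b⟩ - hne
    have : ww o (c, false) (d, b) = 0 := by
      unfold ww
      rw [if_neg]
      rintro ⟨-, h2, h3⟩
      apply hne
      simp only at h2 h3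
      rw [h2, h3]
    rw [this, zero_mul]
  · simp

lemma m_nonneg (X : Set (W → ℝ)) (c : Fin 8) : 0 ≤ m X c := ENNReal.toReal_nonneg

lemma m_le (X : Set (W → ℝ)) (c : Fin 8) : m X c ≤ 1 := by
  unfold m
  refine ENNReal.toReal_le_of_le_ofReal zero_le_one ?_
  refine (measure_mono (sep_subset _ _)).trans ?_
  simp

lemma m_pos {X : Set (W → ℝ)} {c : Fin 8} (h : m X c ≠ 0) :
    ∃ t : ℝ, 0 < t ∧ t ≤ 1 ∧ (1 - t) • vtx (c, false) + t • vtx (c, true) ∈ X := by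
  by_contra hn
  push Not at hn
  apply h
  unfold m
  have : {t ∈ Icc (0 : ℝ) 1 | AffineMap.lineMap (vtx (c, false)) (vtx (c, true)) t ∈ X} ⊆ {0} := by
    rintro t ⟨⟨h0, h1⟩, ht⟩
    by_contra hne
    refine hn t (lt_of_le_of_ne h0 (fun e => hne e.symm)) h1 ?_
    rwa [AffineMap.lineMap_apply_module] at ht
  rw [measure_mono_null this (by simp)]
  simp

lemma m_one {X : Set (W → ℝ)} {c : Fin 8}
    (h : segment ℝ (vtx (c, false)) (vtx (c, true)) ⊆ X) : m X c = 1 := by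
  unfold m
  have : {t ∈ Icc (0 : ℝ) 1 | AffineMap.lineMap (vtx (c, false)) (vtx (c, true)) t ∈ X}
      = Icc 0 1 := by
    ext t
    refine ⟨fun h => h.1, fun ht => ⟨ht, h ?_⟩⟩
    rw [segment_eq_image_lineMap]
    exact ⟨t, ht, rfl⟩
  rw [this]; simp

def s1 (a : Fin 8) (v : W) : ℤ := if v = (a, true) then 1 else if v = (a, false) then 0 else -1

def s2 (a : Fin 8) (v : W) : ℤ :=
  if v.1 = a then 1 else if v = (a + 1, false) ∨ v = (a - 1, false) then 0 else -1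

lemma hs1 : ∀ a u v, G0.Adj u v → 0 ≤ s1 a u * s1 a v ∧ (s1 a u ≠ 0 ∨ s1 a v ≠ 0) := by
  decide +kernel

lemma hs2 : ∀ a u v, G0.Adj u v → 0 ≤ s2 a u * s2 a v ∧ (s2 a u ≠ 0 ∨ s2 a v ≠ 0) := by
  decide +kernel

lemma hs1' : ∀ a v, s1 a v = 0 → v = (a, false) := by decide +kernel

lemma hs2' : ∀ a v, s2 a v = 0 → v = (a + 1, false) ∨ v = (a - 1, false) := by decide +kernel

lemma hs2'' : ∀ a b : Fin 8, b ≠ a → s2 a (b, false) ≤ 0 := by decide +kernel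

lemma base_mem {X : Set (W → ℝ)} (h : IsConnPiece G0 X) {a b : Fin 8} (hab : b ≠ a)
    (ha : m X a ≠ 0) (hb : m X b ≠ 0) : vtx (a, false) ∈ X := by
  obtain ⟨t, t0, t1, ht⟩ := m_pos ha
  obtain ⟨r, r0, r1, hr⟩ := m_pos hb
  obtain ⟨v, hv, hvX⟩ := sep h (s1 a) (hs1 a) ht hr
    (by rw [phi_comb]; simp [s1]; linarith) (by rw [phi_comb]; simp [s1, hab])
  rwa [hs1' a v hv] at hvX

lemma struct {X : Set (W → ℝ)} (h : IsConnPiece G0 X) (o : Fin 8 → ℕ) (ho : ∀ c, o c ≤ 4)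
    (hv : 4 < val (ww o) X) :
    (∀ c, m X c ≠ 0 → vtx (c, false) ∈ X) ∧
      ∃ a : Fin 8, vtx (a, false) ∈ X ∧ vtx (a + 1, false) ∈ X := by
  have key : ∀ a, ∃ b, b ≠ a ∧ m X b ≠ 0 := by
    intro a
    by_contra hn
    push Not at hn
    rw [val_eq, Finset.sum_eq_single a (fun b _ hb => by rw [hn b hb, mul_zero]) (by simp)] at hv
    have h1 : (o a : ℝ) ≤ 4 := by exact_mod_cast ho a
    have h2 := m_le X a
    have h3 := m_nonneg X a
    have h4 : (0 : ℝ) ≤ o a := Nat.cast_nonneg _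
    nlinarith
  have h1 : ∀ c, m X c ≠ 0 → vtx (c, false) ∈ X := by
    intro c hc
    obtain ⟨b, hb, hb0⟩ := key c
    exact base_mem h hb hc hb0
  refine ⟨h1, ?_⟩
  obtain ⟨a, -, ha⟩ := key 0
  obtain ⟨b, hba, hb⟩ := key a
  obtain ⟨v, hv, hvX⟩ := sep h (s2 a) (hs2 a) (h1 a ha) (h1 b hb)
    (by rw [phi_vtx]; simp [s2]) (by rw [phi_vtx]; exact_mod_cast hs2'' a b hba)
  rcases hs2' a v hv with rfl | rfl
  · exact ⟨a, h1 a ha, hvX⟩
  · exact ⟨a - 1, hvX, by simpa using h1 a ha⟩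

def Pairs (a : Fin 4 → Fin 8) : Prop := ∀ j k, j ≠ k → a j ≠ a k ∧ a j ≠ a k + 1

def pb (a b : Fin 8) : Bool := a != b && a != b + 1 && b != a + 1

lemma viaPb {p : (Fin 4 → Fin 8) → Prop} (H : ∀ a b : Fin 8, pb a b = true → ∀ c, pb a c = true →
    pb b c = true → ∀ d, pb a d = true → pb b d = true → pb c d = true → p ![a, b, c, d])
    {a : Fin 4 → Fin 8} (h : Pairs a) : p a := by
  have e : a = ![a 0, a 1, a 2, a 3] := by funext j; fin_cases j <;> rfl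
  have k : ∀ j k, j ≠ k → pb (a j) (a k) = true := by
    intro j k hjk
    have h1 := h j k hjk
    have h2 := h k j hjk.symm
    simp [pb, h1.1, h1.2, h2.2]
  rw [e]
  exact H _ _ (k 0 1 (by decide)) _ (k 0 2 (by decide)) (k 1 2 (by decide)) _ (k 0 3 (by decide))
    (k 1 3 (by decide)) (k 2 3 (by decide))

lemma cover4 {a : Fin 4 → Fin 8} (h : Pairs a) : ∀ e : Fin 8, ∃ j, e = a j ∨ e = a j + 1 :=
  viaPb (p := fun a => ∀ e : Fin 8, ∃ j, e = a j ∨ e = a j + 1) (by decide +kernel) h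

lemma alloc_struct {P : Fin 4 → Set (W → ℝ)} (hP : IsAlloc G0 P) (o : Fin 4 → Fin 8 → ℕ)
    (ho : ∀ j c, o j c ≤ 4) (hv : ∀ j, 4 < val (ww (o j)) (P j)) :
    ∃ a : Fin 4 → Fin 8, Pairs a ∧
      ∀ j, val (ww (o j)) (P j) ≤ ((o j (a j) + o j (a j + 1) : ℕ) : ℝ) := by
  have hs := fun j => struct (hP.1 j) (o j) (ho j) (hv j)
  choose a ha1 ha2 using fun j => (hs j).2
  have hpairs : Pairs a := by
    intro j k hjk
    have hd := Set.disjoint_left.mp (hP.2 j k hjk)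
    constructor
    · intro e; exact hd (ha1 j) (e ▸ ha1 k)
    · intro e; exact hd (ha1 j) (e ▸ ha2 k)
  refine ⟨a, hpairs, fun j => ?_⟩
  have hz : ∀ c, c ≠ a j → c ≠ a j + 1 → m (P j) c = 0 := by
    intro c h1 h2
    by_contra hne
    have hc := (hs j).1 c hne
    obtain ⟨k, hk⟩ := cover4 hpairs c
    have hjk : j ≠ k := by
      rintro rfl
      tauto
    have hd := Set.disjoint_left.mp (hP.2 j k hjk)
    rcases hk with rfl | rfl
    · exact hd hc (ha1 k)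
    · exact hd hc (ha2 k)
  have hne : ∀ x : Fin 8, x ≠ x + 1 := by decide
  rw [val_eq, Finset.sum_eq_add_of_mem (a j) (a j + 1) (Finset.mem_univ _) (Finset.mem_univ _)
    (hne _) (fun c _ hc => by rw [hz c hc.1 hc.2, mul_zero])]
  push_cast
  have h1 := m_le (P j) (a j)
  have h2 := m_le (P j) (a j + 1)
  have h3 : (0 : ℝ) ≤ o j (a j) := Nat.cast_nonneg _
  have h4 : (0 : ℝ) ≤ o j (a j + 1) := Nat.cast_nonneg _
  nlinarith

def S1 (a : Fin 8) : Set (W → ℝ) := segment ℝ (vtx (a, false)) (vtx (a, true))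
def S2 (a : Fin 8) : Set (W → ℝ) := segment ℝ (vtx (a, false)) (vtx (a + 1, false))
def S4 (a : Fin 8) : Set (W → ℝ) := S2 a ∩ {x | 0 < x (a, false)}
def Q (a : Fin 8) : Set (W → ℝ) := ((S1 a ∪ S2 a) ∪ S1 (a + 1)) ∪ S4 (a + 1)

lemma adj1 : ∀ a : Fin 8, G0.Adj (a, false) (a, true) := by decide +kernel
lemma adj2 : ∀ a : Fin 8, G0.Adj (a, false) (a + 1, false) := by decide +kernel

lemma cS4 (a : Fin 8) : Convex ℝ (S4 a) :=
  (convex_segment _ _).inter (convex_halfSpace_gt (f := fun x : W → ℝ => x (a, false))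
    ⟨fun _ _ => rfl, fun _ _ => rfl⟩ 0)

lemma mS4 (a : Fin 8) : vtx (a, false) ∈ S4 a :=
  ⟨left_mem_segment _ _ _, by simp [vtx]⟩

lemma Q_piece (a : Fin 8) : IsConnPiece G0 (Q a) := by
  constructor
  · refine ⟨{S1 a, S2 a, S1 (a + 1), S4 (a + 1)}, Set.toFinite _, ?_, ?_⟩
    · intro I hI
      simp only [mem_insert_iff, mem_singleton_iff] at hI
      rcases hI with rfl | rfl | rfl | rfl
      · exact ⟨convex_segment _ _, _, _, adj1 a, subset_rfl⟩
      · exact ⟨convex_segment _ _, _, _, adj2 a, subset_rfl⟩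
      · exact ⟨convex_segment _ _, _, _, adj1 _, subset_rfl⟩
      · exact ⟨cS4 _, _, _, adj2 _, inter_subset_left⟩
    · simp [Q, union_assoc]
  · have h1 : ∀ a, IsPathConnected (S1 a) := fun a =>
      (convex_segment _ _).isPathConnected ⟨_, left_mem_segment _ _ _⟩
    have h2 : IsPathConnected (S2 a) :=
      (convex_segment _ _).isPathConnected ⟨_, left_mem_segment _ _ _⟩
    have h4 : IsPathConnected (S4 (a + 1)) := (cS4 _).isPathConnected ⟨_, mS4 _⟩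
    have h : IsPathConnected (Q a) :=
      (((h1 a).union h2 ⟨_, left_mem_segment _ _ _, left_mem_segment _ _ _⟩).union (h1 (a + 1))
        ⟨_, Or.inr (right_mem_segment _ _ _), left_mem_segment _ _ _⟩).union h4
        ⟨_, Or.inr (left_mem_segment _ _ _), mS4 _⟩
    exact fun x hx y hy => h.joinedIn x hx y hy

lemma seg_supp {u v : W} {x : W → ℝ} (h : x ∈ segment ℝ (vtx u) (vtx v)) (huv : u ≠ v) :
    (∀ z, x z ≠ 0 → z = u ∨ z = v) ∧ (x u ≠ 0 ∨ x v ≠ 0) := by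
  obtain ⟨a, b, -, -, hab, rfl⟩ := h
  constructor
  · intro z hz
    by_contra hn
    push Not at hn
    apply hz
    simp [vtx, hn.1, hn.2]
  · by_contra hn
    push Not at hn
    simp [vtx, huv, huv.symm] at hn
    rw [hn.1, hn.2] at hab
    simp at hab

lemma Q_supp {a : Fin 8} {x : W → ℝ} (h : x ∈ Q a) :
    (∀ z, x z ≠ 0 → z.1 = a ∨ z.1 = a + 1 ∨ z.1 = a + 1 + 1) ∧
      ∃ z, x z ≠ 0 ∧ (z.1 = a ∨ z.1 = a + 1) := by
  rcases h with ((h | h) | h) | h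
  · obtain ⟨h1, h2⟩ := seg_supp h (adj1 a).ne
    refine ⟨fun z hz => by rcases h1 z hz with rfl | rfl <;> simp, ?_⟩
    rcases h2 with h2 | h2 <;> exact ⟨_, h2, by simp⟩
  · obtain ⟨h1, h2⟩ := seg_supp h (adj2 a).ne
    refine ⟨fun z hz => by rcases h1 z hz with rfl | rfl <;> simp, ?_⟩
    rcases h2 with h2 | h2 <;> exact ⟨_, h2, by simp⟩
  · obtain ⟨h1, h2⟩ := seg_supp h (adj1 _).ne
    refine ⟨fun z hz => by rcases h1 z hz with rfl | rfl <;> simp, ?_⟩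
    rcases h2 with h2 | h2 <;> exact ⟨_, h2, by simp⟩
  · obtain ⟨h1, -⟩ := seg_supp h.1 (adj2 _).ne
    exact ⟨fun z hz => by rcases h1 z hz with rfl | rfl <;> simp, _, ne_of_gt h.2, by simp⟩

def st (e : Fin 2) (j : Fin 4) : Fin 8 := ⟨2 * j.1 + e.1, by omega⟩

lemma st_disj : ∀ e j k, j ≠ k → ∀ c d : Fin 8,
    (c = st e j ∨ c = st e j + 1) → (c = st e k ∨ c = st e k + 1 ∨ c = st e k + 1 + 1) →
    (d = st e k ∨ d = st e k + 1) → (d = st e j ∨ d = st e j + 1 ∨ d = st e j + 1 + 1) →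
    False := by decide +kernel

lemma st_cov : ∀ e (c : Fin 8), ∃ j, c = st e j ∨ c = st e j + 1 := by decide +kernel

lemma adj_cases : ∀ u v, G0.Adj u v → ∃ c : Fin 8,
    (u = (c, false) ∧ v = (c, true)) ∨ (v = (c, false) ∧ u = (c, true)) ∨
    (u = (c, false) ∧ v = (c + 1, false)) ∨ (v = (c, false) ∧ u = (c + 1, false)) := by
  decide +kernel

lemma Q_alloc (e : Fin 2) : IsAlloc G0 (fun j => Q (st e j)) := by
  refine ⟨fun j => Q_piece _, fun j k hjk => Set.disjoint_left.mpr fun x h1 h2 => ?_⟩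
  obtain ⟨a1, c, hc, a2⟩ := Q_supp h1
  obtain ⟨b1, d, hd, b2⟩ := Q_supp h2
  exact st_disj e j k hjk c.1 d.1 a2 (b1 c hc) b2 (a1 d hd)

lemma Q_cover (e : Fin 2) : ⋃ j, Q (st e j) = cake G0 := by
  refine Subset.antisymm (iUnion_subset fun j => sub_cake (Q_piece _)) ?_
  have k1 : ∀ c, S1 c ⊆ ⋃ j, Q (st e j) := by
    intro c x hx
    obtain ⟨j, rfl | rfl⟩ := st_cov e c
    · exact mem_iUnion.mpr ⟨j, Or.inl (Or.inl (Or.inl hx))⟩
    · exact mem_iUnion.mpr ⟨j, Or.inl (Or.inr hx)⟩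
  have k2 : ∀ c, S2 c ⊆ ⋃ j, Q (st e j) := by
    intro c x hx
    obtain ⟨j, rfl | rfl⟩ := st_cov e c
    · exact mem_iUnion.mpr ⟨j, Or.inl (Or.inl (Or.inr hx))⟩
    · by_cases h : 0 < x (st e j + 1, false)
      · exact mem_iUnion.mpr ⟨j, Or.inr ⟨hx, h⟩⟩
      · apply k1 (st e j + 1 + 1)
        obtain ⟨a, b, ha, -, hab, rfl⟩ := hx
        have hne : ∀ x : Fin 8, x ≠ x + 1 := by decide
        have ha0 : a = 0 := by
          simp [vtx, hne] at h
          linarith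
        have hb1 : b = 1 := by linarith
        subst ha0 hb1
        simpa [S1] using left_mem_segment ℝ _ _
  rintro x ⟨u, v, huv, hx⟩
  obtain ⟨c, ⟨rfl, rfl⟩ | ⟨rfl, rfl⟩ | ⟨rfl, rfl⟩ | ⟨rfl, rfl⟩⟩ := adj_cases u v huv
  · exact k1 c hx
  · rw [segment_symm] at hx; exact k1 c hx
  · exact k2 c hx
  · rw [segment_symm] at hx; exact k2 c hx

lemma Q_val (o : Fin 8 → ℕ) (a : Fin 8) : ((o a + o (a + 1) : ℕ) : ℝ) ≤ val (ww o) (Q a) := by
  have hne : ∀ x : Fin 8, x ≠ x + 1 := by decide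
  rw [val_eq]
  have := Finset.sum_le_sum_of_subset_of_nonneg (f := fun c => (o c : ℝ) * m (Q a) c)
    (Finset.subset_univ {a, a + 1})
    (fun c _ _ => mul_nonneg (Nat.cast_nonneg _) (m_nonneg _ _))
  rw [Finset.sum_pair (hne a), m_one (X := Q a) (c := a) (fun x hx => Or.inl (Or.inl (Or.inl hx))),
    m_one (X := Q a) (c := a + 1) (fun x hx => Or.inl (Or.inr hx))] at this
  push_cast
  linarith

def o0 : Fin 4 → Fin 8 → ℕ :=
  ![![1, 4, 4, 1, 3, 2, 2, 3], ![1, 4, 4, 1, 3, 2, 2, 3],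
    ![4, 4, 1, 3, 2, 2, 3, 1], ![4, 4, 1, 3, 2, 2, 3, 1]]

lemma o_le : ∀ j c, o0 j c ≤ 4 := by decide +kernel

lemma o_lb : ∀ i, ∃ e, ∀ j, 5 ≤ o0 i (st e j) + o0 i (st e j + 1) := by decide +kernel

lemma o_ub (i : Fin 4) {a : Fin 4 → Fin 8} (h : Pairs a) :
    ∃ j, o0 i (a j) + o0 i (a j + 1) ≤ 5 :=
  viaPb (p := fun a => ∀ i, ∃ j, o0 i (a j) + o0 i (a j + 1) ≤ 5) (by decide +kernel) h i

lemma o_no {a : Fin 4 → Fin 8} (h : Pairs a) : ∃ j, o0 j (a j) + o0 j (a j + 1) ≤ 4 :=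
  viaPb (p := fun a => ∃ j, o0 j (a j) + o0 j (a j + 1) ≤ 4) (by decide +kernel) h

theorem result : ∃ (V : Type) (_ : Fintype V) (_ : DecidableEq V) (G : SimpleGraph V) (n : ℕ)
    (w : Fin n → V → V → ℝ) (mms : Fin n → ℝ), 1 ≤ n ∧
    (∀ i u v, 0 ≤ w i u v) ∧ (∀ i u v, ¬ G.Adj u v → w i u v = 0) ∧
    (∀ i, IsGreatest {c : ℝ | ∃ P : Fin n → Set (V → ℝ), IsAlloc G P ∧ ⋃ j, P j = cake G ∧
      ∀ j, c ≤ val (w i) (P j)} (mms i)) ∧
    ¬ ∃ A : Fin n → Set (V → ℝ), IsAlloc G A ∧ ∀ i, mms i ≤ val (w i) (A i) := by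
  refine ⟨W, inferInstance, inferInstance, G0, 4, fun i => ww (o0 i), fun _ => 5, by norm_num,
    ?_, ?_, fun i => ⟨?_, ?_⟩, ?_⟩
  · intro i u v; beta_reduce; unfold ww; split_ifs <;> simp
  · rintro i ⟨a, b⟩ ⟨c, d⟩ h
    beta_reduce
    unfold ww
    rw [if_neg]
    rintro ⟨h1, h2, h3⟩
    simp only at h1 h2 h3
    subst h1 h2 h3
    exact h (adj1 a)
  · obtain ⟨e, he⟩ := o_lb i
    refine ⟨_, Q_alloc e, Q_cover e, fun j => le_trans ?_ (Q_val _ _)⟩
    beta_reduce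
    exact_mod_cast he j
  · rintro c ⟨P, hP, -, hc⟩
    by_contra hn
    push Not at hn
    obtain ⟨a, ha, hv⟩ := alloc_struct hP (fun _ => o0 i) (fun _ => o_le i)
      (fun j => by have := hc j; linarith)
    obtain ⟨j, hj⟩ := o_ub i ha
    have h1 := hv j
    have h2 := hc j
    have h3 : ((o0 i (a j) + o0 i (a j + 1) : ℕ) : ℝ) ≤ 5 := by exact_mod_cast hj
    linarith
  · rintro ⟨A, hA, hc⟩
    obtain ⟨a, ha, hv⟩ := alloc_struct hA o0 o_le (fun j => by have := hc j; linarith)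
    obtain ⟨j, hj⟩ := o_no ha
    have h1 := hv j
    have h2 := hc j
    have h3 : ((o0 j (a j) + o0 j (a j + 1) : ℕ) : ℝ) ≤ 4 := by exact_mod_cast hj
    linarith

end Pool.Agent.Results.MP_ee2dc8_co.Sun
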